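import Mathlib
import Pool.Agent.Lib.MP_2024f4_pr.TR.Top

set_option autoImplicit false

open MeasureTheory ProbabilityTheory Pool.Agent.Lib.MP_2024f4_pr

namespace Pool.Agent.Results.MP_2024f4_pr.BouncyTailRate

/-- Bouncy Particle Sampler: exponential decay of the relative entropy for initial laws with an
exponential moment of order `a` in position and velocity, at a rate that depends on the initial law
only through `a`. -/
theorem result :
    ∀ (d : ℕ) (U : Euc d → ℝ), Standing U → LSI (target U) →
      ∀ γ : ℝ, 0 < γ → ∀ a : ℝ, 0 < a →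
        ∃ lam : ℝ, 0 < lam ∧ ∀ p₀ : Measure (Euc d × Euc d), IsProbabilityMeasure p₀ →
          Integrable (fun z : Euc d × Euc d => Real.exp (a * (‖z.1‖ + ‖z.2‖))) p₀ →
          InformationTheory.klDiv p₀ ((target U).prod (stdGaussian (Euc d))) ≠ ⊤ →
          ∃ C₀ : ℝ, ∀ t : ℝ, 0 ≤ t → IsProbabilityMeasure (law (bps U γ) p₀ t) ∧
            InformationTheory.klDiv (law (bps U γ) p₀ t) ((target U).prod (stdGaussian (Euc d))) ≤
              ENNReal.ofReal (C₀ * Real.exp (-lam * t)) :=
  fun _ _ hU hL _ hγ _ ha => TR.Top.bb hU hL hγ ha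

end Pool.Agent.Results.MP_2024f4_pr.BouncyTailRate
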