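import Mathlib
import Pool.Agent.Lib.MP_2024f4_pr.Main
import Pool.Agent.Lib.MP_2024f4_pr.Gauss

set_option autoImplicit false

open ProbabilityTheory Pool.Agent.Lib.MP_2024f4_pr

namespace Pool.Agent.Results.MP_2024f4_pr.NoUniformRate

/-- The standing assumptions and LSI are satisfiable (standard Gaussian, `d = 1`), and whenever
they hold, neither the Zig-Zag process nor the Bouncy Particle Sampler has an entropic
convergence rate that is uniform over initial laws with exponential tails. -/
theorem result :
    (∃ U : Euc 1 → ℝ, Standing U ∧ LSI (target U)) ∧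
    ∀ d : ℕ, 0 < d → ∀ U : Euc d → ℝ, Standing U → LSI (target U) →
      (∀ γ : Fin d → ℝ, (∀ i, 0 < γ i) →
        NoUniformRate (zigzag U γ) ((target U).prod (signs d))) ∧
      (∀ γ : ℝ, 0 < γ →
        NoUniformRate (bps U γ) ((target U).prod (stdGaussian (Euc d)))) :=
  ⟨⟨_, standing_gauss, lsi_euc⟩, fun _ hd _ hU hL => both hd hU hL⟩

end Pool.Agent.Results.MP_2024f4_pr.NoUniformRate
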