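import Mathlib
import Pool.Agent.Lib.MP_2024f4_pr.TR.Top

set_option autoImplicit false

open MeasureTheory ProbabilityTheory Pool.Agent.Lib.MP_2024f4_pr

namespace Pool.Agent.Results.MP_2024f4_pr.ZigZagTailRate

/-- Zig-Zag process: exponential decay of the relative entropy for initial laws with an exponential
moment of order `a` in the position, at a rate that depends on the initial law only through `a`. -/
theorem result :
    ∀ d : ℕ, 0 < d → ∀ U : Euc d → ℝ, Standing U → LSI (target U) →
      ∀ γ : Fin d → ℝ, (∀ i, 0 < γ i) → ∀ a : ℝ, 0 < a →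
        ∃ lam : ℝ, 0 < lam ∧ ∀ p₀ : Measure (Euc d × Euc d), IsProbabilityMeasure p₀ →
          Integrable (fun z : Euc d × Euc d => Real.exp (a * ‖z.1‖)) p₀ →
          InformationTheory.klDiv p₀ ((target U).prod (signs d)) ≠ ⊤ →
          ∃ C₀ : ℝ, ∀ t : ℝ, 0 ≤ t → IsProbabilityMeasure (law (zigzag U γ) p₀ t) ∧
            InformationTheory.klDiv (law (zigzag U γ) p₀ t) ((target U).prod (signs d)) ≤
              ENNReal.ofReal (C₀ * Real.exp (-lam * t)) :=
  fun _ hd _ hU hL _ hγ _ ha => TR.Top.zz hd hU hL hγ ha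

end Pool.Agent.Results.MP_2024f4_pr.ZigZagTailRate
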